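import Mathlib
import Pool.Agent.Lib.MP_dd2281_co.One

/-!
# Bracing a square with unit rods: rods at irrational angles are needed
-/

set_option autoImplicit false

namespace Pool.Agent.Results.MP_dd2281_co.IrrationalRods

/-- There are finitely many joints `v`, at different points `p v` of the plane `ℂ`, and every rod (edge of `G`) has length `1`.
The rods may cross. -/
def IsRodConfiguration {V : Type} (G : SimpleGraph V) (p : V → ℂ) : Prop :=
  Finite V ∧ Function.Injective p ∧ ∀ u v, G.Adj u v → ‖p v - p u‖ = 1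

/-- `AB`, `BC`, `CD`, `DA` are rods, and `A`, `B`, `C`, `D` are the corners of a unit square. -/
def IsUnitSquare {V : Type} (G : SimpleGraph V) (p : V → ℂ) (A B C D : V) : Prop :=
  G.Adj A B ∧ G.Adj B C ∧ G.Adj C D ∧ G.Adj D A ∧ p C - p B = p D - p A ∧
    (p D - p A = Complex.I * (p B - p A) ∨ p D - p A = -Complex.I * (p B - p A))

/-- A motion of the configuration: the positions `m t v` of the joints, `0 ≤ t ≤ 1`, are continuous in `t`, start at `p v`, and
the two ends of every rod keep the distance `1`. -/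
def IsMotion {V : Type} (G : SimpleGraph V) (p : V → ℂ) (m : ℝ → V → ℂ) : Prop :=
  (∀ v, ContinuousOn (fun t => m t v) (Set.Icc 0 1)) ∧ m 0 = p ∧
    ∀ t ∈ Set.Icc (0 : ℝ) 1, ∀ u v, G.Adj u v → ‖m t v - m t u‖ = 1

/-- Every motion keeps the distance of the opposite corners `A` and `C` constant. -/
def MakesSquareRigid {V : Type} (G : SimpleGraph V) (p : V → ℂ) (A C : V) : Prop :=
  ∀ m : ℝ → V → ℂ, IsMotion G p m → ∀ t ∈ Set.Icc (0 : ℝ) 1, ‖m t A - m t C‖ = ‖p A - p C‖

/-- The angle between the rods `u v` and `u' v'` is a rational multiple of `π`. -/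
def RationalAngle {V : Type} (p : V → ℂ) (u v u' v' : V) : Prop :=
  ∃ n : ℕ, 0 < n ∧ ((p v' - p u') / (p v - p u)) ^ n = 1

/-- The sum of `g u v` over the steps `u v` of a walk. -/
def circulation {V : Type} {G : SimpleGraph V} (g : V → V → ℂ) {u v : V} (W : G.Walk u v) : ℂ :=
  (W.darts.map fun d => g d.fst d.snd).sum

/-- If a rod configuration makes the square rigid, then some closed walk `W` of rods through `A` is not a combination of
closed walks with at most four rods and of closed walks whose rods make rational angles with each other: some antisymmetric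
function `g` has circulation `0` around all these and circulation `≠ 0` around `W`. In particular `W` has at least five rods,
and two of them make an irrational angle. -/
theorem result {V : Type} (G : SimpleGraph V) (p : V → ℂ) (hG : IsRodConfiguration G p)
    (A B C D : V) (hsq : IsUnitSquare G p A B C D) (hrigid : MakesSquareRigid G p A C) :
    ∃ (g : V → V → ℂ) (W : G.Walk A A), (∀ u v, g v u = -g u v) ∧
      (∀ (v : V) (U : G.Walk v v),
        (U.length ≤ 4 ∨ ∀ d ∈ U.darts, ∀ d' ∈ U.darts,
          RationalAngle p d.fst d.snd d'.fst d'.snd) → circulation g U = 0) ∧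
      circulation g W ≠ 0 ∧ 5 ≤ W.length ∧
      ∃ d ∈ W.darts, ∃ d' ∈ W.darts, ¬ RationalAngle p d.fst d.snd d'.fst d'.snd := by
  obtain ⟨hfin, -, hp⟩ := hG
  obtain ⟨hAB, hBC, -, -, h1, h2⟩ := hsq
  obtain ⟨ε, hε, hC⟩ : ∃ ε : ℝ, (ε = 1 ∨ ε = -1) ∧
      p C - p B = ε * Complex.I * (p B - p A) := by
    rcases h2 with h2 | h2
    · refine ⟨1, Or.inl rfl, ?_⟩
      rw [h1, h2]
      push_cast
      ring
    · refine ⟨-1, Or.inr rfl, ?_⟩
      rw [h1, h2]
      push_cast
      ring
  by_contra hno
  obtain ⟨m, hm, hne⟩ := Pool.Agent.Lib.MP_dd2281_co.one p hp hAB hBC ε hε hC (by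
    intro g hg hS W
    by_contra hW
    apply hno
    refine ⟨g, W, hg, hS, hW, ?_, ?_⟩
    · by_contra hlen
      exact hW (hS A W (Or.inl (by omega)))
    · by_contra hd
      refine hW (hS A W (Or.inr fun d hd1 d' hd2 => ?_))
      by_contra hr
      exact hd ⟨d, hd1, d', hd2, hr⟩)
  exact hne (hrigid m hm 1 ⟨zero_le_one, le_refl _⟩)

end Pool.Agent.Results.MP_dd2281_co.IrrationalRods
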