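import Mathlib
import Pool.Agent.Lib.MP_dd2281_co.Two

/-!
# Bracing a square with unit rods: at least two long cycles are needed
-/

set_option autoImplicit false

namespace Pool.Agent.Results.MP_dd2281_co.TwoLongCycles

/-- There are finitely many joints `v`, at different points `p v` of the plane `ℂ`, and every rod (edge of `G`) has length `1`.
The rods may cross. -/
def IsRodConfiguration {V : Type} (G : SimpleGraph V) (p : V → ℂ) : Prop :=
  Finite V ∧ Function.Injective p ∧ ∀ u v, G.Adj u v → ‖p v - p u‖ = 1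

/-- `AB`, `BC`, `CD`, `DA` are rods, and `A`, `B`, `C`, `D` are the corners of a unit square. -/
def IsUnitSquare {V : Type} (G : SimpleGraph V) (p : V → ℂ) (A B C D : V) : Prop :=
  G.Adj A B ∧ G.Adj B C ∧ G.Adj C D ∧ G.Adj D A ∧ p C - p B = p D - p A ∧
    (p D - p A = Complex.I * (p B - p A) ∨ p D - p A = -Complex.I * (p B - p A))

/-- A motion of the configuration: the positions `m t v` of the joints, `0 ≤ t ≤ 1`, are continuous in `t`, start at `p v`, and
the two ends of every rod keep the distance `1`. -/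
def IsMotion {V : Type} (G : SimpleGraph V) (p : V → ℂ) (m : ℝ → V → ℂ) : Prop :=
  (∀ v, ContinuousOn (fun t => m t v) (Set.Icc 0 1)) ∧ m 0 = p ∧
    ∀ t ∈ Set.Icc (0 : ℝ) 1, ∀ u v, G.Adj u v → ‖m t v - m t u‖ = 1

/-- Every motion keeps the distance of the opposite corners `A` and `C` constant. -/
def MakesSquareRigid {V : Type} (G : SimpleGraph V) (p : V → ℂ) (A C : V) : Prop :=
  ∀ m : ℝ → V → ℂ, IsMotion G p m → ∀ t ∈ Set.Icc (0 : ℝ) 1, ‖m t A - m t C‖ = ‖p A - p C‖

/-- The sum of `g u v` over the steps `u v` of a walk. -/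
def circulation {V : Type} {G : SimpleGraph V} (g : V → V → ℂ) {u v : V} (W : G.Walk u v) : ℂ :=
  (W.darts.map fun d => g d.fst d.snd).sum

/-- Every closed walk `W` through `A` is, as a cycle with complex coefficients, a linear combination of the closed walks in
`S`: every antisymmetric function `g` with circulation `0` around the closed walks in `S` has circulation `0` around `W`. -/
def SpansCycles {V : Type} (G : SimpleGraph V) (A : V) (S : Set (Σ v, G.Walk v v)) : Prop :=
  ∀ g : V → V → ℂ, (∀ u v, g v u = -g u v) → (∀ U ∈ S, circulation g U.2 = 0) →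
    ∀ W : G.Walk A A, circulation g W = 0

/-- If a rod configuration makes the square rigid, then its cycles through `A` are not spanned by the closed walks with at
most four rods together with one further closed walk with at most eight rods. -/
theorem result {V : Type} (G : SimpleGraph V) (p : V → ℂ) (hG : IsRodConfiguration G p)
    (A B C D : V) (hsq : IsUnitSquare G p A B C D) (hrigid : MakesSquareRigid G p A C)
    (U₀ : Σ v, G.Walk v v) (hU₀ : U₀.2.length ≤ 8) :
    ¬ SpansCycles G A ({U : Σ v, G.Walk v v | U.2.length ≤ 4} ∪ {U₀}) := by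
  obtain ⟨-, -, hp⟩ := hG
  obtain ⟨hAB, hBC, -, -, h1, h2⟩ := hsq
  obtain ⟨ε, hε, hC⟩ : ∃ ε : ℝ, (ε = 1 ∨ ε = -1) ∧
      p C - p B = ε * Complex.I * (p B - p A) := by
    rcases h2 with h2 | h2
    · refine ⟨1, Or.inl rfl, ?_⟩
      rw [h1, h2]
      push_cast
      ring
    · refine ⟨-1, Or.inr rfl, ?_⟩
      rw [h1, h2]
      push_cast
      ring
  intro hS
  obtain ⟨m, hm, hne⟩ := Pool.Agent.Lib.MP_dd2281_co.two p hp hAB hBC ε hε hC U₀.2 hU₀ (by
    intro g hg h3 h4 W
    refine hS g hg ?_ W
    rintro U (hU | hU)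
    · exact h3 U.1 U.2 hU
    · rw [Set.mem_singleton_iff.1 hU]
      exact h4)
  exact hne (hrigid m hm 1 ⟨zero_le_one, le_refl _⟩)

end Pool.Agent.Results.MP_dd2281_co.TwoLongCycles
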